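import Pool.Agent.Q91.JC.Stm

/-!
# Project JC, job PIG: many integer points given by a good dual approximation
-/

set_option autoImplicit false

namespace Q251.JC

open Q91.JC Filter

theorem int_finite (m : ℕ) (B : ℝ) : {q : Fin m → ℤ | ‖(fun j => (q j : ℝ))‖ ≤ B}.Finite := by
  refine (Set.finite_Icc (fun _ : Fin m => -⌈B⌉) (fun _ => ⌈B⌉)).subset ?_
  intro q hq
  have h1 : ∀ j, |(q j : ℝ)| ≤ B := fun j => (norm_le_pi_norm (fun j => (q j : ℝ)) j).trans hq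
  have h2 : ∀ j, |(q j : ℝ)| ≤ (⌈B⌉ : ℝ) := fun j => (h1 j).trans (Int.le_ceil B)
  constructor
  · intro j
    have := (abs_le.1 (h2 j)).1
    exact_mod_cast this
  · intro j
    have := (abs_le.1 (h2 j)).2
    exact_mod_cast this

theorem exists_norm {m : ℕ} (hm : 1 ≤ m) (f : Fin m → ℝ) : ∃ i, |f i| = ‖f‖ := by
  have : Nonempty (Fin m) := ⟨⟨0, hm⟩⟩
  obtain ⟨i, -, hi⟩ := Finset.exists_max_image Finset.univ (fun i => |f i|) Finset.univ_nonempty
  refine ⟨i, le_antisymm (norm_le_pi_norm f i) ?_⟩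
  exact (pi_norm_le_iff_of_nonneg (abs_nonneg _)).2 fun j => hi j (Finset.mem_univ j)

theorem sum_lamz {d m : ℕ} (A : Matrix (Fin (d + 1)) (Fin m) ℝ) (v : ZP d) (q : Fin m → ℝ) :
    ∑ j, lamz A v j * q j = (v.1 : ℝ) * A.mulVec q 0 + ∑ i, (v.2 i : ℝ) * A.mulVec q i.succ := by
  unfold lamz lam Matrix.mulVec dotProduct
  simp only [add_mul, Finset.sum_add_distrib, Finset.mul_sum, Finset.sum_mul]
  congr 1
  · exact Finset.sum_congr rfl fun j _ => by ring
  · rw [Finset.sum_comm]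
    exact Finset.sum_congr rfl fun i _ => Finset.sum_congr rfl fun j _ => by ring

theorem pig (hGP : S_GP) : S_PIG := by
  classical
  intro d m A ω ω' γ s' hd hm hω' hγ hs' h1 h2 hinf C V0
  have hm1 : (1 : ℝ) ≤ m := by exact_mod_cast hm
  set a := ω + 1 - ω' * (1 + γ) with ha
  have ha0 : 0 < a := by linarith
  set b := (d : ℝ) + 1 - s' - γ * ((m : ℝ) - 1 + s') - 1 / ω' with hb
  have hb0 : 0 < b := by linarith
  set C' := max C 1 * ((3 * (m : ℝ)) ^ (m - 1) * (2 * m + 3)) with hC'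
  have e1 := (tendsto_rpow_atTop ha0).eventually_ge_atTop (4 * ((d : ℝ) + 1))
  have e2 := (tendsto_rpow_atTop hω').eventually_ge_atTop (max V0 1)
  have e3 := (tendsto_rpow_atTop hω').eventually ((tendsto_rpow_atTop hb0).eventually_ge_atTop C')
  obtain ⟨B, hB⟩ := (e1.and (e2.and (e3.and (eventually_ge_atTop 1)))).exists_forall_of_atTop
  obtain ⟨q0, hq0, hq0'⟩ := hinf.exists_notMem_finite (int_finite m B)
  set N := ‖(fun j => (q0 j : ℝ))‖ with hN
  have hNB : B ≤ N := by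
    by_contra h
    push Not at h
    exact hq0' h.le
  obtain ⟨f1, f2, f3, f4⟩ := hB N hNB
  set V := N ^ ω' with hV
  have hN0 : 0 < N := by linarith
  have hV1 : 1 ≤ V := (le_max_right _ _).trans f2
  have hV0 : 0 < V := by linarith
  set ψ := V ^ (-γ) with hψ
  have hψ0 : 0 < ψ := Real.rpow_pos_of_pos hV0 _
  have hψ1 : ψ ≤ 1 := Real.rpow_le_one_of_one_le_of_nonpos hV1 (by linarith)
  refine ⟨V, (le_max_left _ _).trans f2, hV1, ?_⟩
  -- the approximation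
  obtain ⟨k, hk⟩ : ∃ k : Fin (d + 1) → ℤ,
      ‖A.mulVec (fun j => (q0 j : ℝ)) - (fun i => (k i : ℝ))‖ < N ^ (-ω) := by
    have h3 : nearInt (A.mulVec (fun j => (q0 j : ℝ))) < N ^ (-ω) := hq0
    unfold nearInt at h3
    obtain ⟨x, ⟨k, rfl⟩, hx⟩ := exists_lt_of_csInf_lt (Set.range_nonempty _) h3
    exact ⟨k, hx⟩
  have hk' : ∀ i, |A.mulVec (fun j => (q0 j : ℝ)) i - k i| ≤ N ^ (-ω) := fun i =>
    (norm_le_pi_norm (A.mulVec (fun j => (q0 j : ℝ)) - (fun i => (k i : ℝ))) i).trans hk.le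
  have hNω : 0 < N ^ (-ω) := Real.rpow_pos_of_pos hN0 _
  -- the box
  set S : Finset (ZP d) := Finset.Icc (0 : ℤ) ⌊V⌋ ×ˢ
    Fintype.piFinset (fun _ : Fin d => Finset.Icc (0 : ℤ) ⌊V⌋) with hS
  have hmem : ∀ v ∈ S, (0 ≤ (v.1 : ℝ) ∧ (v.1 : ℝ) ≤ V) ∧ ∀ i, 0 ≤ (v.2 i : ℝ) ∧ (v.2 i : ℝ) ≤ V := by
    intro v hv
    rw [hS, Finset.mem_product, Fintype.mem_piFinset, Finset.mem_Icc] at hv
    refine ⟨⟨by exact_mod_cast hv.1.1, Int.le_floor.1 hv.1.2⟩, fun i => ?_⟩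
    have := Finset.mem_Icc.1 (hv.2 i)
    exact ⟨by exact_mod_cast this.1, Int.le_floor.1 this.2⟩
  have hcardS : V ^ (d + 1) ≤ (S.card : ℝ) := by
    have h3 : S.card = (⌊V⌋ + 1 - 0).toNat ^ (d + 1) := by
      rw [hS, Finset.card_product, Fintype.card_piFinset, Finset.prod_const, Int.card_Icc,
        Finset.card_univ, Fintype.card_fin, pow_succ, mul_comm]
    rw [h3]
    push_cast
    refine pow_le_pow_left₀ hV0.le ?_ _
    have h4 : (0 : ℤ) ≤ ⌊V⌋ + 1 - 0 := by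
      have : 0 ≤ ⌊V⌋ := Int.floor_nonneg.2 hV0.le
      omega
    have h5 : (((⌊V⌋ + 1 - 0).toNat : ℤ) : ℝ) = ((⌊V⌋ + 1 - 0 : ℤ) : ℝ) := by
      rw [Int.toNat_of_nonneg h4]
    rw [Int.cast_natCast] at h5
    rw [h5]
    push_cast
    have := (Int.lt_floor_add_one V).le
    linarith
  have hclose : ∀ v ∈ S, ∃ K : ℤ, |(∑ i, lamz A v i * (q0 i : ℝ)) - K| ≤ N * ψ / 4 := by
    intro v hv
    obtain ⟨⟨hv1, hv2⟩, hv3⟩ := hmem v hv
    refine ⟨v.1 * k 0 + ∑ i, v.2 i * k i.succ, ?_⟩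
    rw [sum_lamz]
    push_cast
    have h3 : (v.1 : ℝ) * A.mulVec (fun j => (q0 j : ℝ)) 0
        + ∑ i, (v.2 i : ℝ) * A.mulVec (fun j => (q0 j : ℝ)) i.succ
        - ((v.1 : ℝ) * k 0 + ∑ i, (v.2 i : ℝ) * k i.succ)
        = (v.1 : ℝ) * (A.mulVec (fun j => (q0 j : ℝ)) 0 - k 0)
          + ∑ i, (v.2 i : ℝ) * (A.mulVec (fun j => (q0 j : ℝ)) i.succ - k i.succ) := by
      simp only [mul_sub, Finset.sum_sub_distrib]
      ring
    rw [h3]
    have h4 : |(v.1 : ℝ) * (A.mulVec (fun j => (q0 j : ℝ)) 0 - k 0)| ≤ V * N ^ (-ω) := by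
      rw [abs_mul, abs_of_nonneg hv1]
      exact mul_le_mul hv2 (hk' 0) (abs_nonneg _) hV0.le
    have h5 : |∑ i, (v.2 i : ℝ) * (A.mulVec (fun j => (q0 j : ℝ)) i.succ - k i.succ)| ≤
        d * (V * N ^ (-ω)) := by
      refine (Finset.abs_sum_le_sum_abs _ _).trans ?_
      calc ∑ i, |(v.2 i : ℝ) * (A.mulVec (fun j => (q0 j : ℝ)) i.succ - k i.succ)|
          ≤ ∑ _i : Fin d, V * N ^ (-ω) := Finset.sum_le_sum fun i _ => by
            rw [abs_mul, abs_of_nonneg (hv3 i).1]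
            exact mul_le_mul (hv3 i).2 (hk' _) (abs_nonneg _) hV0.le
        _ = d * (V * N ^ (-ω)) := by
            rw [Finset.sum_const, Finset.card_univ, Fintype.card_fin, nsmul_eq_mul]
    have h6 : V * N ^ (-ω) * N ^ a = N * ψ := by
      rw [hψ, hV, ← Real.rpow_mul hN0.le, ← Real.rpow_add hN0, ← Real.rpow_add hN0]
      nth_rewrite 2 [← Real.rpow_one N]
      rw [← Real.rpow_add hN0]
      congr 1
      rw [ha]
      ring
    have h7 : V * N ^ (-ω) * (4 * ((d : ℝ) + 1)) ≤ N * ψ := by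
      rw [← h6]
      exact mul_le_mul_of_nonneg_left f1 (by positivity)
    have h8 := abs_add_le ((v.1 : ℝ) * (A.mulVec (fun j => (q0 j : ℝ)) 0 - k 0))
      (∑ i, (v.2 i : ℝ) * (A.mulVec (fun j => (q0 j : ℝ)) i.succ - k i.succ))
    linarith
  obtain ⟨S', hS', hcard, hnear⟩ := hGP m (ZP d) S (fun v => lamz A v) q0 N ψ hm hψ0 hψ1 f4
    (fun i => norm_le_pi_norm (fun j => (q0 j : ℝ)) i) (exists_norm hm (fun j => (q0 j : ℝ))) hclose
  have hne : S'.Nonempty := by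
    rw [Finset.nonempty_iff_ne_empty]
    rintro rfl
    have h3 : (1 : ℝ) ≤ V ^ (d + 1) := one_le_pow₀ hV1
    rw [Finset.card_empty, Nat.cast_zero, zero_mul] at hcard
    linarith
  obtain ⟨v0, hv0⟩ := hne
  have hle : (S'.card : ℝ) ≤ ((GV A V ψ).ncard : ℝ) := by
    have h3 : ((S'.image (fun v => v - v0) : Finset (ZP d)) : Set (ZP d)) ⊆ GV A V ψ := by
      intro u hu
      rw [Finset.coe_image] at hu
      obtain ⟨v, hv, rfl⟩ := hu
      have g1 := hmem v (hS' hv)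
      have g2 := hmem v0 (hS' hv0)
      refine ⟨?_, fun i => ?_, ?_⟩
      · change |((v.1 - v0.1 : ℤ) : ℝ)| ≤ V
        push_cast
        rw [abs_le]
        constructor <;> linarith [g1.1.1, g1.1.2, g2.1.1, g2.1.2]
      · change |((v.2 i - v0.2 i : ℤ) : ℝ)| ≤ V
        push_cast
        rw [abs_le]
        constructor <;> linarith [(g1.2 i).1, (g1.2 i).2, (g2.2 i).1, (g2.2 i).2]
      · have h4 := hnear v hv v0 hv0
        have h5 : lamz A (v - v0) = fun i => lamz A v i - lamz A v0 i :=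
          funext fun i => lamz_sub A v v0 i
        change Near ψ (lamz A (v - v0))
        rw [h5]
        exact h4
    have h4 := Set.ncard_le_ncard h3 (GV_finite A V ψ)
    rw [Set.ncard_coe_finset, Finset.card_image_of_injective _ (fun x y h => by
      simpa using h)] at h4
    exact_mod_cast h4
  -- the final estimate
  set D := (3 * (m : ℝ) / ψ) ^ (m - 1) * ((2 * m + 3) * N) with hD
  have hD0 : 0 < D := by positivity
  have g1 : V ^ (d + 1) ≤ ((GV A V ψ).ncard : ℝ) * D :=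
    hcardS.trans (hcard.trans (mul_le_mul_of_nonneg_right hle hD0.le))
  have hNV : N = V ^ (1 / ω') := by
    rw [hV, ← Real.rpow_mul hN0.le, mul_one_div_cancel hω'.ne', Real.rpow_one]
  have hcast : ((m - 1 : ℕ) : ℝ) = (m : ℝ) - 1 := by
    rw [Nat.cast_sub hm, Nat.cast_one]
  have hDV : D = (3 * (m : ℝ)) ^ (m - 1) * (2 * m + 3) * V ^ (γ * ((m : ℝ) - 1) + 1 / ω') := by
    have h3 : (3 * (m : ℝ) / ψ) = 3 * m * V ^ γ := by
      rw [hψ, Real.rpow_neg hV0.le, div_inv_eq_mul]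
    rw [hD, h3, mul_pow, Real.rpow_add hV0, ← hNV, Real.rpow_mul hV0.le, ← hcast,
      Real.rpow_natCast]
    ring
  have g2 : max C 1 * V ^ ((1 + γ) * s') * D ≤ V ^ (d + 1) := by
    rw [hDV]
    calc max C 1 * V ^ ((1 + γ) * s') *
          ((3 * (m : ℝ)) ^ (m - 1) * (2 * m + 3) * V ^ (γ * ((m : ℝ) - 1) + 1 / ω'))
        = C' * (V ^ ((1 + γ) * s') * V ^ (γ * ((m : ℝ) - 1) + 1 / ω')) := by
          rw [hC']; ring
      _ ≤ V ^ b * (V ^ ((1 + γ) * s') * V ^ (γ * ((m : ℝ) - 1) + 1 / ω')) :=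
          mul_le_mul_of_nonneg_right f3 (by positivity)
      _ = V ^ (d + 1) := by
          rw [← Real.rpow_add hV0, ← Real.rpow_add hV0, ← Real.rpow_natCast]
          congr 1
          rw [hb]
          push_cast
          ring
  have g3 : max C 1 * V ^ ((1 + γ) * s') ≤ ((GV A V ψ).ncard : ℝ) :=
    le_of_mul_le_mul_right (g2.trans g1) hD0
  refine le_trans (mul_le_mul_of_nonneg_right (le_max_left C 1) ?_) g3
  positivity

end Q251.JC
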